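import Mathlib
import Pool.Agent.Helper71.FC.Small

/-!
# Mixed Tate 1-motives: no relations of bounded degree in finite codimension

Let `M = [ℤ^r → 𝔾ₘ^s]` be a 1-motive over the field `ℚ̄` of algebraic numbers, given by the
logarithms `t_1, …, t_l` of the coordinates of the `r` points. Its periods are the elements of
`ℚ̄ + ℚ̄ 2πi + ∑ ℚ̄ t_i`, the dimension of its motivic Galois group is the dimension of the rational
space spanned by `2πi` and the `t_i`, and the assertion of Q1 for `M` says that periods of `M` which
together with `1` are linearly independent over `ℚ̄` are algebraically independent. We prove this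
assertion up to any given degree, for the 1-motives with logarithms in a space `Λ` of finite
codimension in the space of ALL logarithms of algebraic numbers: for all `n, D ≥ 2` there is a
rational space `Λ` of logarithms of algebraic numbers, with `2πi ∈ Λ`, of codimension at most
`(D + n choose n) - 2 n`, such that any `m ≤ n` elements of `ℚ̄ + ℚ̄ Λ` which together with `1` are
linearly independent over `ℚ̄` satisfy no nontrivial polynomial relation of degree at most `D` with
algebraic coefficients. For instance the codimension is at most `2` for quadratic relations between two
periods. More generally the coefficients of the relations may be in any finite dimensional `ℚ̄`-space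
`W` of complex numbers: then the codimension is at most `dim W (D + n choose n) - 2 n`. For instance
`W` is the space spanned by the products of at most `J` periods of an arbitrary motive `N` over `ℚ̄`;
then all relations of degree at most `D` in the logarithms in `Λ` and of degree at most `J` in the
periods of `N` are consequences of relations between periods of `N`. The space `Λ` can be chosen to
contain any given finite dimensional space for which the assertion is true (this is the case for the
space `0`, and for the space spanned by `2πi` if `W = ℚ̄`).

The proof. Call a tuple `y_1, …, y_m` which satisfies such a relation bad, if it is linearly independent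
together with `1` over `ℚ̄`, and fewer linearly independent combinations of the `y_i` never satisfy such
a relation. Then a relation for `y` does not vanish on a line through `y` with direction over `ℚ̄`, as
it would otherwise be a relation for the `m - 1` combinations which are constant on the line. By the
theorem on families of varieties of `Y787.AS` (which depends on the hyperplane case of the linear
subgroup theorem) the bad tuples in a space of logarithms with a finite basis lie, in the coordinates
over `ℚ̄` with respect to `1` and this basis, in an algebraic set of dimension at most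
`dim W (D + m choose m) - 1 + m (m - 1)`, which does not depend on the length of the basis. Let
`G ⊂ F` be finite dimensional spaces of logarithms such that `G` has the wanted property. If the kernels
of all rational linear maps `φ` from `F / G` to `ℚ^c` contained, after extension of scalars, bad tuples,
we could take, over the field of germs of sequences of algebraic numbers along an ultrafilter, a
generic rational `φ`, and a bad tuple in the kernel of `φ`. By affine transformations over `ℚ̄` we may
assume that its coordinates with respect to `1` and with respect to some `m` elements of the basis are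
generic, independent of `φ`. As the tuple is not zero modulo `G`, the coefficients of `φ` satisfy `c`
linear relations over the field generated by the coordinates of the tuple, hence
`c + m ^ 2 + m ≤ dim W (D + m choose m) - 1 + m (m - 1)`. So for `c = dim W (D + n choose n) - 2 n` a
good `G` is contained in a good subspace of codimension at most `c` of `F`. An increasing sequence of
finite dimensional spaces `F` with union the whole space gives an increasing sequence of good
subspaces, the union of which is good and has codimension at most `c`.
-/

set_option autoImplicit false

namespace Pool.Agent.Results.MP_12eca1_ag.FiniteCodimension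

open Module

/-- the field of the algebraic numbers -/
noncomputable abbrev Qbar : IntermediateField ℚ ℂ := algebraicClosure ℚ ℂ

/-- The complex logarithms of the nonzero algebraic numbers. -/
noncomputable def logs : Submodule ℚ ℂ :=
  Submodule.span ℚ {z : ℂ | IsAlgebraic ℚ (Complex.exp z)}

/-- `ℚ̄ + ℚ̄ V`: for a space `V` of logarithms the periods of the 1-motives over `ℚ̄` of the form
`[ℤ^r → 𝔾ₘ^s]` with logarithms (and `2πi`) in `V`. -/
noncomputable def periods (V : Submodule ℚ ℂ) : Submodule Qbar ℂ :=
  Submodule.span Qbar (insert 1 (V : Set ℂ))

/-- For `m ≤ n`, any `m` elements of `ℚ̄ + ℚ̄ V` which together with `1` are linearly independent over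
`ℚ̄` satisfy no nonzero polynomial relation of total degree at most `D` with coefficients in `W`. -/
def NoRelations (n D : ℕ) (W : Submodule Qbar ℂ) (V : Submodule ℚ ℂ) : Prop :=
  ∀ m ≤ n, ∀ y : Fin m → ℂ, (∀ i, y i ∈ periods V) →
    LinearIndependent Qbar (Fin.cons 1 y : Fin (m + 1) → ℂ) →
    ∀ P : MvPolynomial (Fin m) ℂ, (∀ s, P.coeff s ∈ W) → P.totalDegree ≤ D →
      MvPolynomial.eval y P = 0 → P = 0

/-- `V` is contained in a subspace `Λ` of the space of all logarithms which has a complement `U` of
dimension at most `dim W (D + n choose n) - 2 n`, such that the periods with logarithms in `Λ` satisfy no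
relations as above. -/
def HasExtension (n D : ℕ) (W : Submodule Qbar ℂ) (V : Submodule ℚ ℂ) : Prop :=
  ∃ Λ U : Submodule ℚ ℂ, V ≤ Λ ∧ Λ ⊔ U = logs ∧ Module.Finite ℚ U ∧
    finrank ℚ U ≤ finrank Qbar W * (D + n).choose n - 2 * n ∧ NoRelations n D W Λ

/-- **Main result.** -/
theorem result :
    (∀ z, z ∈ logs ↔ IsAlgebraic ℚ (Complex.exp z)) ∧
    (∀ n D : ℕ, 2 ≤ D → ∀ W : Submodule Qbar ℂ, Module.Finite Qbar W →
      ∀ V : Submodule ℚ ℂ, V ≤ logs → Module.Finite ℚ V → NoRelations n D W V →
        HasExtension n D W V) ∧
    (∀ n D : ℕ, 2 ≤ D → (∀ W : Submodule Qbar ℂ, Module.Finite Qbar W → HasExtension n D W ⊥) ∧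
      HasExtension n D (Submodule.span Qbar {1})
        (Submodule.span ℚ {2 * Real.pi * Complex.I})) := by
  have := Pool.Agent.Y787.uncountable_complex
  have hbk : Pool.Agent.Helper71.FC.Bk Qbar logs := by
    intro r w hw hli
    exact Pool.Agent.Y787.li_consC w
      (fun j => (Pool.Agent.Helper71.MLog.mem_span_logs (w j)).1 (hw j)) hli
  have main : ∀ n D : ℕ, 2 ≤ D → ∀ W : Submodule Qbar ℂ, Module.Finite Qbar W →
      ∀ V : Submodule ℚ ℂ, V ≤ logs → Module.Finite ℚ V → NoRelations n D W V →
        HasExtension n D W V := by
    intro n D hD W hW V hV hVf hVn
    exact Pool.Agent.Helper71.FC.exists_noRel Pool.Agent.Y787.hypC_complex.hyp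
      Pool.Agent.Y787.hypC_complex.one logs
      (fun x hx => Pool.Agent.H301R2.SSE.Lt_log
        ((Pool.Agent.Helper71.MLog.mem_span_logs x).1 hx)) hbk
      Pool.Agent.Helper71.MLog.countable_logs n D hD W V hV hVf hVn
  refine ⟨Pool.Agent.Helper71.MLog.mem_span_logs, main, fun n D hD => ⟨fun W hW =>
    main n D hD W hW ⊥ bot_le inferInstance (Pool.Agent.Helper71.FC.noRel_bot n D W), ?_⟩⟩
  have hfin : Module.Finite Qbar (Submodule.span Qbar ({1} : Set ℂ)) :=
    FiniteDimensional.span_of_finite Qbar (Set.finite_singleton _)
  have hfin' : Module.Finite ℚ (Submodule.span ℚ ({2 * Real.pi * Complex.I} : Set ℂ)) :=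
    FiniteDimensional.span_of_finite ℚ (Set.finite_singleton _)
  refine main n D hD _ hfin _ ?_ hfin' ?_
  · rw [Submodule.span_singleton_le_iff_mem]
    refine Submodule.subset_span ?_
    change IsAlgebraic ℚ (Complex.exp (2 * Real.pi * Complex.I))
    rw [Complex.exp_two_pi_mul_I]
    exact isAlgebraic_one
  · refine Pool.Agent.Helper71.FC.noRel_one (k := Qbar) (fun x hx => ?_) n D hfin' ?_
    · have hq : Algebra.IsAlgebraic ℚ Qbar := algebraicClosure.isAlgebraic ℚ ℂ
      have h1 : IsAlgebraic ℚ x := hx.restrictScalars ℚ
      exact ⟨⟨x, mem_algebraicClosure_iff.2 h1⟩, rfl⟩
    · refine (finrank_span_le_card _).trans ?_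
      simp

end Pool.Agent.Results.MP_12eca1_ag.FiniteCodimension
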