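import Mathlib
import Pool.Agent.Helper71.TF.DecQ

/-!
# The period conjecture for Kummer 1-motives in bounded degree, for any number of periods

Let `ℚ̄` be the field of the algebraic numbers and `𝓛` the rational space of all complex logarithms of
algebraic numbers. The 1-motive `M = [ℤ^r → 𝔾ₘ^s]` over `ℚ̄` given by `r` points of `𝔾ₘ^s(ℚ̄)` has as periods
the numbers `2πi` and the logarithms of the coordinates of the points (and algebraic numbers); its
motivic Galois group is an extension of `𝔾ₘ` by the vector group of dimension `dim_ℚ (L / 2πi ℚ)`, where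
`L ≤ 𝓛` is spanned by `2πi` and the logarithms. The assertion of Q1 for `M` is: elements of `ℚ̄ + ℚ̄ L`
which together with `1` are linearly independent over `ℚ̄` are algebraically independent. More
generally, for a motive `N` over `ℚ̄` the assertion for `M ⊕ N` relative to the one for `N` says that
elements of `ℚ̄ + ℚ̄ L` which are linearly independent modulo `ℚ̄ + ℚ̄ V`, where `V` is the space of the
logarithms in `L` which come from `N` (for instance `V = 2πi ℚ`), are algebraically independent over the
field generated by the periods of `N`.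

We prove this, up to any given degree `D`, for the logarithms which avoid one of `m + 1` summands of
`𝓛`, and for **any number** of periods. Let `V ≤ 𝓛` be of finite dimension, and let the
finite dimensional `ℚ̄`-space `W ⊂ ℂ` be arbitrary, for instance the space spanned by the products of
at most `D` periods of `N`. There is a decomposition into a direct sum

  `𝓛 = V ⊕ T_0 ⊕ ⋯ ⊕ T_m`

with infinite dimensional `T_i`, such that for each `j`, for **all** `n` and all elements `y_1, …, y_n` of
`ℚ̄ + ℚ̄ (V ⊕ ⨁_(i ≠ j) T_i)` which are linearly independent over `ℚ̄` modulo `ℚ̄ + ℚ̄ V` there is no nonzero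
polynomial `P` of degree at most `D` with coefficients in `W` such that `P(y_1, …, y_n) = 0`. For `m = 1`:
`𝓛` is the sum of two subspaces, with intersection `V`, for which the period conjecture is true up to
degree `D`, for all 1-motives `[ℤ^r → 𝔾ₘ^s]` with logarithms in them, of any size.

The proof. The `T_i` are unions of increasing sequences of finite dimensional spaces. An element `τ` of
`𝓛` is added to their sum by writing `τ = τ_0 + ⋯ + τ_m`, where `τ_1, …, τ_m` satisfy no relation of
degree at most `D + 2` over the field generated by bases of `V`, `W`, by `τ` and by all elements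
considered so far; then any `m` of the `τ_i` have this property. Such `τ_i` exist by the theorem on
subspaces of finite codimension of `𝓛` (`Pool.Agent.Helper71.FC`, based on the hyperplane case of the
linear subgroup theorem).
-/

set_option autoImplicit false

namespace Pool.Agent.Results.MP_12eca1_ag.GoodDecompositions

open Module

/-- the field of the algebraic numbers -/
noncomputable abbrev Qbar : IntermediateField ℚ ℂ := algebraicClosure ℚ ℂ

/-- The complex logarithms of the nonzero algebraic numbers. -/
noncomputable def logs : Submodule ℚ ℂ :=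
  Submodule.span ℚ {z : ℂ | IsAlgebraic ℚ (Complex.exp z)}

/-- `ℚ̄ + ℚ̄ V`: for a space `V` of logarithms the periods of the 1-motives over `ℚ̄` of the form
`[ℤ^r → 𝔾ₘ^s]` with logarithms (and `2πi`) in `V`. -/
noncomputable def periods (V : Submodule ℚ ℂ) : Submodule Qbar ℂ :=
  Submodule.span Qbar (insert 1 (V : Set ℂ))

/-- The rational space `S` is the direct sum of `V` and of the infinite dimensional rational spaces
`T_0, …, T_m`. -/
structure IsDirectSum (S V : Submodule ℚ ℂ) {m : ℕ} (T : Fin (m + 1) → Submodule ℚ ℂ) : Prop where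
  sum : V ⊔ ⨆ i, T i = S
  unique : ∀ v ∈ V, ∀ t : Fin (m + 1) → ℂ, (∀ i, t i ∈ T i) → v + ∑ i, t i = 0 → v = 0 ∧ t = 0
  infinite : ∀ i, ¬ Module.Finite ℚ (T i)

/-- The sum of `V` and of the `T_i`, `i ≠ j`. -/
noncomputable def without (V : Submodule ℚ ℂ) {m : ℕ} (T : Fin (m + 1) → Submodule ℚ ℂ) (j : Fin (m + 1)) :
    Submodule ℚ ℂ :=
  V ⊔ ⨆ i : {i // i ≠ j}, T i

/-- For all `n`, any `n` elements of `ℚ̄ + ℚ̄ S` which are linearly independent over `ℚ̄` modulo `ℚ̄ + ℚ̄ V`
satisfy no nonzero polynomial relation of total degree at most `D` with coefficients in `W`. -/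
def NoRelationsOver (D : ℕ) (W : Submodule Qbar ℂ) (V S : Submodule ℚ ℂ) : Prop :=
  ∀ (n : ℕ) (y : Fin n → ℂ), (∀ i, y i ∈ periods S) →
    (∀ c : Fin n → Qbar, ∑ i, c i • y i ∈ periods V → c = 0) →
    ∀ P : MvPolynomial (Fin n) ℂ, (∀ s, P.coeff s ∈ W) → P.totalDegree ≤ D →
      MvPolynomial.eval y P = 0 → P = 0

/-- **Main result.** -/
theorem result :
    (∀ z, z ∈ logs ↔ IsAlgebraic ℚ (Complex.exp z)) ∧
    ∀ (D m : ℕ) (W : Submodule Qbar ℂ), Module.Finite Qbar W →
      ∀ V : Submodule ℚ ℂ, V ≤ logs → Module.Finite ℚ V →
        ∃ T : Fin (m + 1) → Submodule ℚ ℂ, IsDirectSum logs V T ∧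
          ∀ j, NoRelationsOver D W V (without V T j) := by
  refine ⟨Pool.Agent.Helper71.MLog.mem_span_logs, fun D m W hW V hV hVf => ?_⟩
  obtain ⟨T, h1, h2, h3, h4⟩ := Pool.Agent.Helper71.TF.kummer_dec D m hV hVf W hW
  exact ⟨T, ⟨h1, h2, h3⟩, fun j n y hy hi P hP hPD hPy => h4 j n y hy hi P hP hPD hPy⟩

end Pool.Agent.Results.MP_12eca1_ag.GoodDecompositions
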