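import Pool.Agent.Helper3.MM.Ten
import Pool.Graph.R_seed8.Y116.UV.Graph
import Pool.Graph.R_seed8.Q193.LT.Prime

/-!
# The period conjecture for mixed motives and one cohomology group of one trilinear form

Let `k` be a field of characteristic zero with an embedding into `ℂ`, and let `𝓜` be the category of the
(mixed) Nori motives over an algebraic extension `K ⊆ ℂ` of `k`, for example over `k` itself. For a separated
scheme `X` of finite type over `k` let `H^q_c(X)` be the motive in `𝓜` of the cohomology with compact supports
of `X_K`, and let `M(a)` be the Tate twists (`CompactData`, library). For `N` in `𝓜` let `⟨N⟩` be the tensor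
category generated by `N`: it consists of the subquotients of the finite direct sums of the
`N^{⊗a} ⊗ (N^∨)^{⊗b}`, and `In M N` says that `M` is in `⟨N⟩`. The category `⟨N⟩` is **not** closed under
extensions.

For `T_{ijl} ∈ k` (`i < a`, `j < b`, `l < c`) we consider the hypersurface

`E_T : ∑ T_{ijl} x_i y_j z_l = 1`

in the affine space of dimension `a + b + c`. It is smooth (Euler's formula). The coefficients `T_{ijl}` are in
`S ⊆ k`; here `S = k`, or `k = ℚ` and `S = {0, 1}`. In the second case `E_T` is given by a finite set of
triples `(i, j, l)`.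

We say that the motive `N` is **geometric** if it is in `⟨⊕_j H^{q_j}_c(X_j)(w_j)⟩` for finitely many affine
schemes `X_j` of finite type over `k` and integers `q_j`, `w_j`. All Nori motives over `K` are geometric: they are
subquotients of twists of `H^q(X, Y)` with `X ∖ Y` smooth and `Y` a divisor with normal crossings (Nori,
resolution of singularities), `H^q(X, Y)(-r)` is a direct factor of `H^{q+r}(V)` for the smooth scheme
`V = {s_i t_i = y_i}` over `X`, where `y_1, …, y_r` are equations of the components of `Y`, the dual of `H^n(V)` is
`H^{2d-n}_c(V)(d)`, and `V` may be replaced by an affine bundle which is an affine scheme (Jouanolou).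

**Theorem.** (1) For every geometric motive `N` there are **one** `T` with coefficients in `S` and **one** degree
`p` such that `N` is in `⟨H^p_c(E_T)⟩`.

(2) Let `tr N` be the transcendence degree of the field `k(periods of N)`, and `dm N` the dimension of the motivic
Galois group of `N`. Then the period conjecture `dm N ≤ tr N` is true for all geometric motives `N` if and
only if it is true for the motives `H^p_c(E_T)`, for all `T` with coefficients in `S` and all `p`.

The schemes in the theorem do not depend on `K` and on the theory of motives: `T` and `p` in (1) can be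
chosen for the data `(X_j, q_j)`, as stated.

The proof. Reductions of this kind for pure motives use closed-open decompositions and the fact that the
motives in question form a class that is closed under extensions. This is not possible here. Instead
`H^q_c(X)` for an affine `X` and all `q ≤ N` is realised as a direct factor of `H^{q+2a+1}_c(E_T)(a-1)`
(`Pool.Agent.Helper3.MM.occurs`). The bilinear equations of the library (`Cone`) in variables `u`, `v` define a
cone whose open part `u_0 v_0 ≠ 0` is `X × 𝔾_m × 𝔾_m`. We add dummy variables `t_j`, `s_j` with the equations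
`u_0 t_j = 0`, `v_0 s_j = 0`. They do not change the open part and move the cohomology of the rest of the cone to
high degrees. So the cohomology of the new cone in low degrees is that of `X × 𝔾_m × 𝔾_m`, and the one of its
complement in the affine space is the same up to a shift; `E_T` is an affine bundle over this complement.
Several groups are put together by disjoint unions and products with `𝔾_m`; the Tate motive is added in the same
way.
-/

set_option autoImplicit false

open CategoryTheory CategoryTheory.Limits AlgebraicGeometry Pool.Agent.Y116.UV Pool.Agent.Q193.LT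
  Pool.Agent.Helper3.MM

universe v u

namespace Pool.Agent.Results.MP_12eca1_ag.OneTrilinearForm

/-- The sets of coefficients: the whole field `k`, or `{0, 1}` if all elements of `k` are quotients of
integers. -/
def Coefficients {k : Type} [Field k] (S : Set k) : Prop :=
  S = Set.univ ∨ S = {0, 1} ∧ Frac k

/-- The motive `N` is in the tensor category of a finite direct sum of Tate twists of motives `H^q_c(X)`, for
affine schemes `X` of finite type over `k`. -/
def Geometric {k : Type} [Field k] {𝓜 : Type u} [Category.{v} 𝓜] [Abelian 𝓜] (D : CompactData k 𝓜)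
    (In : 𝓜 → 𝓜 → Prop) (N : 𝓜) : Prop :=
  ∃ (J : Type) (_ : Finite J) (X : J → Aff k) (q w : J → ℤ), In N (bigSum D X q w)

/-- The transcendence degree `tr` of the periods (possibly infinite) and the dimension `dm` of the motivic
Galois group: the periods of `N` are the coordinates of a point of a torsor under this group, and the torsor of
`N` maps onto the one of each `N'` in `⟨N⟩`, so `tr` drops by at most the drop of `dm`. -/
def PeriodsDrop {𝓜 : Type u} (In : 𝓜 → 𝓜 → Prop) (tr : 𝓜 → ℕ∞) (dm : 𝓜 → ℕ) : Prop :=
  ∀ N N', In N' N → tr N + dm N' ≤ tr N' + dm N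

/-- **One cohomology group of one trilinear form.** See the explanations above. -/
theorem result {k : Type} [Field k] {S : Set k} (hS : Coefficients S) :
    -- the hypersurfaces are smooth
    (∀ (a b c : ℕ) (T : Fin a → Fin b → Fin c → k), Algebra.Smooth k (Hyp T)) ∧
    -- (1) one group is enough for finitely many affine schemes, in all theories
    (∀ (J : Type) [Finite J] (X : J → Aff k) (q : J → ℤ),
      ∃ (a b c : ℕ) (T : Fin a → Fin b → Fin c → k) (p : ℤ), (∀ i j l, T i j l ∈ S) ∧
        ∀ (𝓜 : Type u) [Category.{v} 𝓜] [Abelian 𝓜] (D : CompactData k 𝓜) (In : 𝓜 → 𝓜 → Prop),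
          IsMixed D In → ∀ (w : J → ℤ) (N : 𝓜), In N (bigSum D X q w) → In N (D.H p (hypS T))) ∧
    -- (2) the period conjecture
    ∀ (𝓜 : Type u) [Category.{v} 𝓜] [Abelian 𝓜] (D : CompactData k 𝓜) (In : 𝓜 → 𝓜 → Prop),
      IsMixed D In → ∀ (tr : 𝓜 → ℕ∞) (dm : 𝓜 → ℕ), PeriodsDrop In tr dm →
        ((∀ N, Geometric D In N → (dm N : ℕ∞) ≤ tr N) ↔
          ∀ (a b c : ℕ) (T : Fin a → Fin b → Fin c → k) (p : ℤ), (∀ i j l, T i j l ∈ S) →
            (dm (D.H p (hypS T)) : ℕ∞) ≤ tr (D.H p (hypS T))) := by
  classical
  have h0 : (0 : k) ∈ S := by
    rcases hS with rfl | ⟨rfl, -⟩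
    · trivial
    · exact Or.inl rfl
  have h1 : (1 : k) ∈ S := by
    rcases hS with rfl | ⟨rfl, -⟩
    · trivial
    · exact Or.inr rfl
  have hP : Presents S := by
    rcases hS with rfl | ⟨rfl, h⟩
    · exact presents_univ
    · exact presents_frac h
  refine ⟨fun a b c T => hyp_smooth T, fun J _ X q => ?_, fun 𝓜 _ _ D In hD tr dm hd => ⟨?_, ?_⟩⟩
  · obtain ⟨a, b, c, T, p, hT, h⟩ := one_group.{v, u} h0 h1 hP X q
    exact ⟨a, b, c, T, p, hT, fun 𝓜 _ _ D In hD w N hN => hD.trans hN (h D In hD w)⟩
  · intro h a b c T p _
    have ft : Algebra.FiniteType k (Hyp T) := ft_quot _ _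
    apply h
    refine ⟨Unit, inferInstance, fun _ => ⟨Hyp T⟩, fun _ => p, fun _ => 0, ?_⟩
    obtain ⟨e⟩ := hD.compact.twZero
    have r : Retract (D.H p (hypS T)) (bigSum D (fun _ : Unit => (⟨Hyp T⟩ : Aff k)) (fun _ => p)
        fun _ => 0) :=
      (Retract.ofIso (e.app (D.H p (hypS T))).symm).trans
        ⟨biproduct.ι (fun _ : Unit => (D.tw 0).obj (D.H p (hypS T))) (),
          biproduct.π (fun _ : Unit => (D.tw 0).obj (D.H p (hypS T))) (), biproduct.ι_π_self _ _⟩
    exact hD.retract r
  · intro h N hN
    obtain ⟨J, _, X, q, w, hN⟩ := hN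
    obtain ⟨a, b, c, T, p, hT, hE⟩ := one_group.{v, u} h0 h1 hP X q
    have h2 := hd _ _ (hD.trans hN (hE D In hD w))
    have h3 := h a b c T p hT
    have h4 : (dm (D.H p (hypS T)) : ℕ∞) + dm N ≤ dm (D.H p (hypS T)) + tr N := by
      calc (dm (D.H p (hypS T)) : ℕ∞) + dm N ≤ tr (D.H p (hypS T)) + dm N := by gcongr
        _ ≤ tr N + dm (D.H p (hypS T)) := h2
        _ = dm (D.H p (hypS T)) + tr N := add_comm _ _
    exact (ENat.add_le_add_iff_left (ENat.natCast_ne_top _)).mp h4

end Pool.Agent.Results.MP_12eca1_ag.OneTrilinearForm
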