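import Mathlib
import Pool.Agent.Helper71.MLog.Logs
import Pool.Agent.Helper71.QR.Fin

/-!
# Almost all 1-motives of mixed Tate type have no quadratic relations between periods

Let `K` be the field of the algebraic numbers. The periods of a 1-motive `M = [ℤ^r → 𝔾ₘ^s]` over `K` are
the elements of `K + K 2πi + ∑ K t_i`, where `t_i` are the logarithms of the coordinates of the points,
and the assertion of Q1 for `M` says that periods which together with `1` are linearly independent over
`K` are algebraically independent. For two logarithms this is open. We prove that for ALMOST ALL `M` it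
is true up to degree two, for all periods of `M` at once, where the number of the logarithms may be a
positive proportion of the rank of the given group.

Let `F` be a rational space of logarithms of algebraic numbers of dimension `v + R`, with a basis
`z_1, …, z_v, b_1, …, b_R`, such that `z_1, …, z_v` satisfy no quadratic relations over `K`; for
instance `v = 0`, or `v = 1` and `z_1 = 2πi`. For a matrix `x` with entries in `K` let
`y_i = ∑ x_ij b_j`, `i ≤ n`. Suppose `R - n ≥ (v + 2 choose 2)` and
`(v + n + 2 choose 2) ≤ ⌊(v + R + 2)² / 4⌋`; for large `R` the second condition is about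
`n ≤ R / √2`. Then for all `x` outside a proper algebraic subset the products of two of the numbers
`1, z_1, …, z_v, y_1, …, y_n` are linearly independent over `K`. (A dimension count without the second
idea below gives this only for `n` up to about `√(2R)`.) The first condition alone implies that for
almost all `x` at most `2 (R - n)` elements of the space spanned by `1, z, y` never satisfy, together
with `z`, a quadratic relation. The exceptional sets are small: the number of exceptional integral
matrices with entries of absolute value at most `H` is at most `κ H ^ (nR - e)` with `e = R - n + 1 -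
(v + 2 choose 2)` in the second result, and `e` the minimum of this number and of
`⌊(v + R + 2)² / 4⌋ - (v + n + 2 choose 2) + 1` in the first one. There is also a version for relations
of any degree `D` with coefficients in any finite dimensional `K`-space `W` of complex numbers (for
instance the space spanned by the products of at most `J` periods of another motive) under the
condition `dim W (v + m + D choose D) + e ≤ m (R - n + v + 2) + 1` for all `m` up to the number of
elements.

The proof. A violation contains a minimal one: elements `y'_1, …, y'_m`, independent modulo `1, z`,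
which satisfy together with `z` a relation, such that fewer combinations never do. Then the relation
does not vanish on a line through `y'` with direction over `K`. By the hyperplane case of the linear
subgroup theorem (a point of `ℂ^d` with coordinates linearly independent over `K` is orthogonal to at
most `d (d - 1)` vectors, linearly independent over `K`, of linear forms in `1` and logarithms) and a
theorem on families of varieties, the tuples `y'` in `K + KF` lie in an algebraic set of dimension
at most `dim W (v + m + D choose D) - 1 + m (m - 1)`. This is the bound of the library; here the bound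
is improved: for any `d ≤ m` the last `m - d` elements of `y'` can be considered as parameters, and we
get `dim W (v + m + D choose D) - 1 + (m - d) (v + R + 1) + d (d - 1)`. (The choice of `d` about `R / 2`
is better than `d = m` if `m` is large.) Now the `y'_i` are affine combinations of the `y_i` modulo
`1, z`. If `y'` is normalised such that it is `y_J + ...` for a set `J` of `m` indices, the
exceptional `x` depend on `y'` up to translations by elements of `K + ∑ K z_i`, which are
`m (v + 1)` parameters, on `m (n - m)` coefficients and on the `(n - m) R` coordinates of the `y_i`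
with `i` not in `J`. So they are in a set of dimension at most
`dim W (v + m + D choose D) - 1 + (m - d) (v + R + 1) + d (d - 1) - m (v + 1) + m (n - m) + (n - m) R`.
-/

set_option autoImplicit false

namespace Pool.Agent.Results.MP_12eca1_ag.QuadraticRelations

open Module MvPolynomial

/-- the field of the algebraic numbers -/
noncomputable abbrev Qbar : IntermediateField ℚ ℂ := algebraicClosure ℚ ℂ

/-- The complex logarithms of the nonzero algebraic numbers. -/
noncomputable def logs : Submodule ℚ ℂ :=
  Submodule.span ℚ {z : ℂ | IsAlgebraic ℚ (Complex.exp z)}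

/-- the elements `∑ j, x i j * b j` -/
noncomputable def elements {n R : ℕ} (b : Fin R → ℂ) (x : Fin n → Fin R → Qbar) : Fin n → ℂ :=
  fun i => ∑ j, (x i j : ℂ) * b j

/-- The elements of `Y` satisfy no nonzero polynomial relation of total degree at most `D` with
coefficients in `W`. -/
def Free (D : ℕ) (W : Submodule Qbar ℂ) {N : ℕ} (Y : Fin N → ℂ) : Prop :=
  ∀ P : MvPolynomial (Fin N) ℂ, (∀ s, P.coeff s ∈ W) → P.totalDegree ≤ D → eval Y P = 0 → P = 0

/-- For `m ≤ M`, any `m` elements of the space spanned over `ℚ̄` by `1` and the elements of `z` and `y`,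
which together with `1` and the elements of `z` are linearly independent over `ℚ̄`, satisfy together
with the elements of `z` no relation as above. -/
def NoRelations (M D : ℕ) (W : Submodule Qbar ℂ) {v n : ℕ} (z : Fin v → ℂ) (y : Fin n → ℂ) : Prop :=
  ∀ m ≤ M, ∀ y' : Fin m → ℂ,
    (∀ i, y' i ∈ Submodule.span Qbar (insert 1 (Set.range z ∪ Set.range y))) →
    LinearIndependent Qbar (Fin.cons 1 (Fin.append z y') : Fin (v + m + 1) → ℂ) →
    Free D W (Fin.append z y')

/-- the products of two of the numbers `1, Y_1, …, Y_N` -/
noncomputable def products {N : ℕ} (Y : Fin N → ℂ) :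
    {p : Fin (N + 1) × Fin (N + 1) // p.1 ≤ p.2} → ℂ :=
  fun p => (Fin.cons 1 Y : Fin (N + 1) → ℂ) p.1.1 * (Fin.cons 1 Y : Fin (N + 1) → ℂ) p.1.2

/-- The property `Q` holds for all `n × R` matrices over `ℚ̄` outside a proper algebraic subset, and for
all but at most `κ H ^ (n R - e)` of the integral ones with entries of absolute value at most `H`. -/
def AlmostAll (e : ℕ) {n R : ℕ} (Q : (Fin n → Fin R → Qbar) → Prop) : Prop :=
  (∃ Ψ : MvPolynomial (Fin n × Fin R) Qbar, Ψ ≠ 0 ∧ ∀ x : Fin n → Fin R → Qbar,
    eval (fun p => x p.1 p.2) Ψ ≠ 0 → Q x) ∧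
  ∃ κ : ℕ, ∀ H : ℕ, 1 ≤ H →
    Set.ncard {X : Fin n → Fin R → ℤ | (∀ i j, |X i j| ≤ H) ∧ ¬ Q (fun i j => (X i j : Qbar))} ≤
      κ * H ^ (n * R - e)

theorem choose_eq (D N : ℕ) : (D + N).choose N = (N + D).choose D := by
  rw [add_comm, Nat.choose_symm_of_eq_add rfl]

/-- **Main result.** -/
theorem result :
    (∀ z, z ∈ logs ↔ IsAlgebraic ℚ (Complex.exp z)) ∧
    -- the assumption on `z` below is satisfied for the empty family and for `2πi`
    (∀ (D : ℕ) (W : Submodule Qbar ℂ), Free D W ![]) ∧
    (∀ D : ℕ, Free D (Submodule.span Qbar {1}) ![2 * Real.pi * Complex.I]) ∧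
    ∀ (v n R : ℕ) (z : Fin v → ℂ) (b : Fin R → ℂ), (∀ i, Fin.append z b i ∈ logs) →
      LinearIndependent ℚ (Fin.append z b) → 0 < n → n ≤ R →
      -- quadratic relations over `ℚ̄`
      (Free 2 (Submodule.span Qbar {1}) z → ∀ e : ℕ, 1 ≤ e → (v + 2).choose 2 + e ≤ R - n + 1 →
        AlmostAll e (fun x : Fin n → Fin R → Qbar =>
          NoRelations (2 * (R - n)) 2 (Submodule.span Qbar {1}) z (elements b x)) ∧
        ((v + n + 2).choose 2 + e ≤ (v + R + 2) ^ 2 / 4 + 1 →
          AlmostAll e (fun x : Fin n → Fin R → Qbar =>
            NoRelations n 2 (Submodule.span Qbar {1}) z (elements b x)) ∧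
          (∃ Ψ : MvPolynomial (Fin n × Fin R) Qbar, Ψ ≠ 0 ∧ ∀ x : Fin n → Fin R → Qbar,
            eval (fun p => x p.1 p.2) Ψ ≠ 0 →
              LinearIndependent Qbar (products (Fin.append z (elements b x)))) ∧
          ∃ X : Fin n → Fin R → ℤ, LinearIndependent Qbar
            (products (Fin.append z (elements b fun i j => (X i j : Qbar)))))) ∧
      -- relations of degree at most `D` with coefficients in `W`
      ∀ (D : ℕ) (W : Submodule Qbar ℂ), Module.Finite Qbar W → Free D W z →
        ∀ M e : ℕ, 1 ≤ e → e ≤ n * R →
          (∀ m, 1 ≤ m → m ≤ M → m ≤ n →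
            finrank Qbar W * (v + m + D).choose D + e ≤ m * (R - n + v + 2) + 1) →
          AlmostAll e (fun x : Fin n → Fin R → Qbar => NoRelations M D W z (elements b x)) := by
  classical
  have := Pool.Agent.Y787.uncountable_complex
  have hL := Pool.Agent.Y787.hypC_complex.hyp
  have hw : Pool.Agent.Y787.AS.Wts' Qbar ℂ := Pool.Agent.Y787.AS.wts_pt
  have hlogs := Pool.Agent.Helper71.MLog.mem_span_logs
  have key : ∀ {v n : ℕ} {M D : ℕ} {W : Submodule Qbar ℂ} {z : Fin v → ℂ} {y : Fin n → ℂ},
      Pool.Agent.Helper71.QR.NoRelZ W D M z y → NoRelations M D W z y := by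
    intro v n M D W z y h m hm y' hy' hli
    exact Pool.Agent.Helper71.QR.freeR_iff.2 (h m hm y' hy' hli)
  have hmono : ∀ {e n R : ℕ} {Q Q' : (Fin n → Fin R → Qbar) → Prop}, (∀ x, Q x → Q' x) →
      Pool.Agent.Helper71.QR.AA e Q → AlmostAll e Q' := by
    intro e n R Q Q' hQ ⟨⟨Ψ, hΨ, h1⟩, κ, h2⟩
    refine ⟨⟨Ψ, hΨ, fun x hx => hQ x (h1 x hx)⟩, κ, fun H hH => le_trans ?_ (h2 H hH)⟩
    refine Set.ncard_le_ncard ?_ ?_
    · rintro X ⟨h3, h4⟩
      exact ⟨h3, fun h5 => h4 (hQ _ h5)⟩
    · refine Set.Finite.subset (Set.Finite.pi' (fun _ : Fin n => Set.Finite.pi'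
        (fun _ : Fin R => (Set.finite_Icc (-(H : ℤ)) H)))) ?_
      rintro X ⟨hX, -⟩ i j
      exact abs_le.1 (hX i j)
  refine ⟨hlogs, ?_, ?_, ?_⟩
  · intro D W P _ _ hP
    rw [MvPolynomial.eq_C_of_isEmpty P] at hP ⊢
    rw [eval_C] at hP
    rw [hP, C_0]
  · intro D P hP1 hP2 hP3
    have hfin' : Module.Finite ℚ (Submodule.span ℚ ({2 * Real.pi * Complex.I} : Set ℂ)) :=
      FiniteDimensional.span_of_finite ℚ (Set.finite_singleton _)
    have h1 := Pool.Agent.Helper71.FC.noRel_one (k := Qbar) (fun x hx => by
      have hq : Algebra.IsAlgebraic ℚ Qbar := algebraicClosure.isAlgebraic ℚ ℂ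
      have h1 : IsAlgebraic ℚ x := hx.restrictScalars ℚ
      exact ⟨⟨x, mem_algebraicClosure_iff.2 h1⟩, rfl⟩) 1 D hfin' (by
        refine (finrank_span_le_card _).trans ?_
        simp)
    refine h1 1 le_rfl ![2 * Real.pi * Complex.I] (fun i => ?_) ?_ P hP1 hP2 hP3
    · refine Submodule.subset_span (Or.inr ?_)
      refine Submodule.subset_span ?_
      simp
    · refine Pool.Agent.Y787.li_consC _ (fun j => ?_) ?_
      · simp only [Matrix.cons_val_fin_one, Complex.exp_two_pi_mul_I]
        exact isAlgebraic_one
      · rw [linearIndependent_unique_iff]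
        simp [Complex.I_ne_zero, Real.pi_ne_zero]
  · intro v n R z b hzb hli hn hnR
    have hli1 : LinearIndependent Qbar (Fin.cons 1 (Fin.append z b) : Fin (v + R + 1) → ℂ) :=
      Pool.Agent.Y787.li_consC _ (fun j => (hlogs _).1 (hzb j)) hli
    have hb := Pool.Agent.Helper71.QR.li_shift hli1
    have hbL : ∀ s, (Fin.append (Fin.cons 1 z : Fin (v + 1) → ℂ) b) s ∈
        Pool.Agent.H301R2.SSE.Lt := by
      intro s
      refine Fin.addCases (fun a => ?_) (fun s => ?_) s
      · rw [Fin.append_left]
        refine Fin.cases ?_ (fun a => ?_) a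
        · exact Pool.Agent.Y787.hypC_complex.one
        · rw [Fin.cons_succ]
          have h1 := hzb (Fin.castAdd R a)
          rw [Fin.append_left] at h1
          exact Pool.Agent.H301R2.SSE.Lt_log ((hlogs _).1 h1)
      · rw [Fin.append_right]
        have h1 := hzb (Fin.natAdd v s)
        rw [Fin.append_right] at h1
        exact Pool.Agent.H301R2.SSE.Lt_log ((hlogs _).1 h1)
    have hf1 : finrank Qbar (Submodule.span Qbar ({1} : Set ℂ)) = 1 :=
      Pool.Agent.Helper71.QR.finrank_one
    have hfin : Module.Finite Qbar (Submodule.span Qbar ({1} : Set ℂ)) :=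
      FiniteDimensional.span_of_finite Qbar (Set.finite_singleton _)
    have aux : ∀ (D M e : ℕ) (W : Submodule Qbar ℂ), Module.Finite Qbar W → Free D W z →
        1 ≤ e → e ≤ n * R →
        Pool.Agent.Helper71.QR.NumZ (finrank Qbar W) D M n R v (n * R + 1 - e) →
        Pool.Agent.Helper71.QR.AA e (fun x : Fin n → Fin R → Qbar =>
          Pool.Agent.Helper71.QR.NoRelZ W D M z (elements b x)) := by
      intro D M e W hW hz he1 he hnum
      exact Pool.Agent.Helper71.QR.aa_of hL hw he hnum he1 z b hbL hb
        (Pool.Agent.Helper71.QR.freeR_iff.1 hz)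
    refine ⟨?_, ?_⟩
    · intro hz e he1 hev
      have he : e ≤ n * R := by
        have h1 : 1 ≤ (v + 2).choose 2 := Nat.choose_pos (by omega)
        have h2 : e ≤ R := by omega
        exact h2.trans (Nat.le_mul_of_pos_left _ hn)
      have hev' : (2 + v).choose v + e ≤ R - n + 1 := by rw [choose_eq]; exact hev
      refine ⟨hmono (fun x hx => key hx) (aux 2 (2 * (R - n)) e _ hfin hz he1 he (by
        rw [hf1]
        exact Pool.Agent.Helper71.QR.num_quad2 hnR he hev')), ?_⟩
      intro hev2
      have hA := aux 2 n e _ hfin hz he1 he (by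
        rw [hf1]
        exact Pool.Agent.Helper71.QR.num_quad1 hnR he hev' he1 (by rw [choose_eq]; exact hev2))
      obtain ⟨Ψ, hΨ, h1⟩ := hA.1
      obtain ⟨Δ, hΔ, h2⟩ := Pool.Agent.Helper71.QR.exists_rank hnR z b hb
      have h3 : ∀ x : Fin n → Fin R → Qbar, eval (fun p => x p.1 p.2) (Ψ * Δ) ≠ 0 →
          LinearIndependent Qbar (products (Fin.append z (elements b x))) := by
        intro x hx
        rw [map_mul] at hx
        have h4 := h1 x (left_ne_zero_of_mul hx)
        have h5 := h2 (fun p => x p.1 p.2) (right_ne_zero_of_mul hx)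
        exact Pool.Agent.Helper71.QR.prods_of h4 h5
      refine ⟨hmono (fun x hx => key hx) hA, ⟨Ψ * Δ, mul_ne_zero hΨ hΔ, h3⟩, ?_⟩
      obtain ⟨X, hX⟩ := Pool.Agent.Helper71.QR.exists_int (Ψ * Δ) (mul_ne_zero hΨ hΔ)
      exact ⟨fun i j => X (i, j), h3 _ hX⟩
    · intro D W hW hz M e he1 he h
      refine hmono (fun x hx => key hx) (aux D M e W hW hz he1 he ?_)
      refine Pool.Agent.Helper71.QR.num_gen hnR he fun m hm0 hmM hmn => ?_
      rw [choose_eq]
      exact h m hm0 hmM hmn

end Pool.Agent.Results.MP_12eca1_ag.QuadraticRelations
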